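import Mathlib

/-!
# The trace of a contraction with small range, and the space of matrices as a Hilbert space
-/

set_option linter.unusedSectionVars false

namespace Pool.Agent.K4H35.HL

open Matrix

noncomputable section

/-- The trace of a contraction with small range. -/
theorem trace_le {E : Type} [NormedAddCommGroup E] [InnerProductSpace ℂ E]
    [FiniteDimensional ℂ E] (L : Submodule ℂ E) (T : E →ₗ[ℂ] E) (hT : ∀ x, T x ∈ L)
    (hb : ∀ x, ‖inner ℂ x (T x)‖ ≤ ‖x‖ ^ 2) :
    ‖LinearMap.trace ℂ E T‖ ≤ Module.finrank ℂ L := by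
  rw [← LinearMap.trace_restrict_eq_of_forall_mem L T hT,
    LinearMap.trace_eq_sum_inner _ (stdOrthonormalBasis ℂ L)]
  refine (norm_sum_le _ _).trans ?_
  have h1 : ∀ i, ‖inner ℂ (stdOrthonormalBasis ℂ L i)
      ((T.restrict fun x _ => hT x) (stdOrthonormalBasis ℂ L i))‖ ≤ 1 := by
    intro i
    have h2 := hb (stdOrthonormalBasis ℂ L i : L)
    have h3 : ‖((stdOrthonormalBasis ℂ L i : L) : E)‖ = 1 := (stdOrthonormalBasis ℂ L).orthonormal.1 i
    rw [h3, one_pow] at h2
    exact h2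
  refine (Finset.sum_le_sum fun i _ => h1 i).trans ?_
  rw [Finset.sum_const, Finset.card_univ, Fintype.card_fin, nsmul_eq_mul, mul_one]

variable {m n : Type} [Fintype m] [Fintype n] [DecidableEq m] [DecidableEq n]

/-- The space of matrices as a Hilbert space. -/
def eu : Matrix m n ℂ ≃ₗ[ℂ] EuclideanSpace ℂ (m × n) :=
  (LinearEquiv.curry ℂ ℂ m n).symm.trans (WithLp.linearEquiv 2 ℂ (m × n → ℂ)).symm

theorem inner_eu (A G : Matrix m n ℂ) : inner ℂ (eu G) (eu A) = trace (A * Gᴴ) := by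
  rw [EuclideanSpace.inner_eq_star_dotProduct]
  unfold trace dotProduct
  rw [Fintype.sum_prod_type]
  exact Finset.sum_congr rfl fun i _ => rfl

theorem norm_eu (A : Matrix m n ℂ) : ‖eu A‖ ^ 2 = (trace (A * Aᴴ)).re := by
  rw [← inner_eu]
  exact (inner_self_eq_norm_sq (𝕜 := ℂ) (eu A)).symm

theorem trace_mul_star (A : Matrix m n ℂ) : trace (A * Aᴴ) = ((‖eu A‖ ^ 2 : ℝ) : ℂ) := by
  rw [← inner_eu, inner_self_eq_norm_sq_to_K]
  norm_cast

/-- The trace of a linear map on the space of matrices. -/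
theorem trace_eq_single (Φ : Matrix m n ℂ →ₗ[ℂ] Matrix m n ℂ) :
    LinearMap.trace ℂ _ Φ = ∑ p, ∑ q, Φ (Matrix.single p q 1) p q := by
  rw [LinearMap.trace_eq_matrix_trace ℂ (Matrix.stdBasis ℂ m n)]
  unfold trace
  rw [Fintype.sum_prod_type]
  refine Finset.sum_congr rfl fun p _ => Finset.sum_congr rfl fun q _ => ?_
  rw [diag_apply, LinearMap.toMatrix_apply, Matrix.stdBasis_eq_single]
  rfl

end

end Pool.Agent.K4H35.HL
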