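import Mathlib
import Pool.Agent.K4H35.UK.Uni
import Pool.Agent.K4H35.HL.Rank

/-!
# Invariants outside a system: the twisted average
-/

set_option linter.unusedSectionVars false

namespace Pool.Agent.K4H35.HL

open Matrix Pool.Agent.K4H35.UK

noncomputable section

variable {ι : Type} [Fintype ι] [DecidableEq ι]

section lin

variable {Γ : Type} [TopologicalSpace Γ] (φ : C(Γ, unitaryGroup ι ℂ))
  {α β : Type} [Fintype α] [DecidableEq α] [Fintype β] [DecidableEq β]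

theorem tr_add (G G' : Matrix (β → ι) (α → ι) ℂ) (u : Matrix ι ι ℂ) :
    tr (G + G') u = tr G u + tr G' u := by
  unfold tr
  rw [Matrix.mul_add, Matrix.add_mul]

theorem tr_smul (r : ℂ) (G : Matrix (β → ι) (α → ι) ℂ) (u : Matrix ι ι ℂ) :
    tr (r • G) u = r • tr G u := by
  unfold tr
  rw [Matrix.mul_smul, Matrix.smul_mul]

/-- The average as a linear map. -/
def avL (I : C(Γ, ℂ) →ₗ[ℂ] ℂ) : Matrix (β → ι) (α → ι) ℂ →ₗ[ℂ] Matrix (β → ι) (α → ι) ℂ where
  toFun := avf φ I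
  map_add' G G' := by
    ext p q
    change I _ = I _ + I _
    rw [← map_add]
    congr 1
    ext g
    change tr (G + G') (φ g : Matrix ι ι ℂ) p q = _
    rw [tr_add]
    rfl
  map_smul' r G := by
    ext p q
    change I _ = r * I _
    rw [← smul_eq_mul, ← map_smul]
    congr 1
    ext g
    change tr (r • G) (φ g : Matrix ι ι ℂ) p q = _
    rw [tr_smul]
    rfl

theorem avL_apply (I : C(Γ, ℂ) →ₗ[ℂ] ℂ) (G : Matrix (β → ι) (α → ι) ℂ) :
    avL φ I G = avf φ I G := rfl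

end lin

/-- Translates by unitary matrices preserve the inner product. -/
theorem trace_tr {a c : ℕ} (x y : Matrix (Fin c → ι) (Fin a → ι) ℂ) {u : Matrix ι ι ℂ}
    (hu : u ∈ unitaryGroup ι ℂ) : trace (tr x u * (tr y u)ᴴ) = trace (x * yᴴ) := by
  unfold tr
  rw [conjTranspose_mul, conjTranspose_mul, conjTranspose_conjTranspose]
  have e1 : tp (Fin c) u * x * (tp (Fin a) u)ᴴ * (tp (Fin a) u * (yᴴ * (tp (Fin c) u)ᴴ)) =
      tp (Fin c) u * (x * yᴴ * (tp (Fin c) u)ᴴ) := by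
    have e2 : tp (Fin c) u * x * (tp (Fin a) u)ᴴ * (tp (Fin a) u * (yᴴ * (tp (Fin c) u)ᴴ)) =
        tp (Fin c) u * x * ((tp (Fin a) u)ᴴ * tp (Fin a) u) * (yᴴ * (tp (Fin c) u)ᴴ) := by
      simp only [Matrix.mul_assoc]
    rw [e2, tpu hu, Matrix.mul_one]
    simp only [Matrix.mul_assoc]
  rw [e1, trace_mul_comm, Matrix.mul_assoc, tpu hu, Matrix.mul_one]

theorem norm_tr {a c : ℕ} (x : Matrix (Fin c → ι) (Fin a → ι) ℂ) {u : Matrix ι ι ℂ}
    (hu : u ∈ unitaryGroup ι ℂ) : ‖eu (tr x u)‖ = ‖eu x‖ := by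
  have h1 : ‖eu (tr x u)‖ ^ 2 = ‖eu x‖ ^ 2 := by
    rw [norm_eu, norm_eu, trace_tr x x hu]
  exact (sq_eq_sq₀ (norm_nonneg _) (norm_nonneg _)).1 h1

theorem norm_trace_le {a c : ℕ} (x y : Matrix (Fin c → ι) (Fin a → ι) ℂ) :
    ‖trace (x * yᴴ)‖ ≤ ‖eu y‖ * ‖eu x‖ := by
  rw [← inner_eu]
  exact norm_inner_le_norm _ _

/-- A tensor which is fixed by a unitary matrix is equal to its translate. -/
theorem tr_fix {a c : ℕ} {x : Matrix (Fin c → ι) (Fin a → ι) ℂ} {u : Matrix ι ι ℂ}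
    (hu : u ∈ unitaryGroup ι ℂ) (h : Fix x u) : tr x u = x := by
  unfold tr
  unfold UK.Fix at h
  rw [h, Matrix.mul_assoc, tpu' hu, Matrix.mul_one]

theorem tr_star {a c : ℕ} (x : Matrix (Fin c → ι) (Fin a → ι) ℂ) (u : Matrix ι ι ℂ) :
    (tr x u)ᴴ = tr xᴴ u := by
  unfold tr
  rw [conjTranspose_mul, conjTranspose_mul, conjTranspose_conjTranspose]
  simp only [Matrix.mul_assoc]

section two

variable (S T : Sys ι) {a c : ℕ} (w : Matrix (Fin c → ι) (Fin a → ι) ℂ)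

theorem continuous_trS {a c : ℕ} (x : Matrix (Fin c → ι) (Fin a → ι) ℂ) :
    Continuous fun g : stabG T => tr x ((inc T g : unitaryGroup ι ℂ) : Matrix ι ι ℂ) :=
  (continuous_tr x).comp (map_continuous (inc T))

/-- The matrix coefficient of a tensor. -/
def Fw : C(stabG T, ℂ) :=
  ⟨fun g => trace (w * (tr w ((inc T g : unitaryGroup ι ℂ) : Matrix ι ι ℂ))ᴴ),
    (continuous_const.matrix_mul (continuous_trS T w).matrix_conjTranspose).matrix_trace⟩

theorem Fw_apply (g : stabG T) :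
    Fw T w g = trace (w * (tr w ((g : unitaryGroup ι ℂ) : Matrix ι ι ℂ))ᴴ) := rfl

/-- The twisted mean. -/
def Iw (I : C(stabG T, ℂ) →ₗ[ℂ] ℂ) : C(stabG T, ℂ) →ₗ[ℂ] ℂ where
  toFun f := I (Fw T w * f)
  map_add' f g := by rw [mul_add, map_add]
  map_smul' r f := by rw [mul_smul_comm, map_smul, RingHom.id_apply]

theorem Iw_apply (I : C(stabG T, ℂ) →ₗ[ℂ] ℂ) (f : C(stabG T, ℂ)) :
    Iw T w I f = I (Fw T w * f) := rfl

variable {S T w}

theorem Fw_norm (hw : ‖eu w‖ = 1) (g : stabG T) : ‖Fw T w g‖ ≤ 1 := by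
  rw [Fw_apply]
  refine (norm_trace_le _ _).trans ?_
  rw [norm_tr w g.1.2, hw, mul_one]

/-- The matrix coefficient is invariant. -/
theorem Fw_mul {u : unitaryGroup ι ℂ} (hu : Fix w (u : Matrix ι ι ℂ)) (v : stabG T)
    (hv : (v : unitaryGroup ι ℂ) = u) (g : stabG T) : Fw T w (v * g) = Fw T w g := by
  rw [Fw_apply, Fw_apply]
  have h1 : (((v * g : stabG T) : unitaryGroup ι ℂ) : Matrix ι ι ℂ) =
      (u : Matrix ι ι ℂ) * ((g : unitaryGroup ι ℂ) : Matrix ι ι ℂ) := by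
    rw [← hv]
    rfl
  rw [h1, tr_mul]
  conv_lhs => rw [← tr_fix u.2 hu]
  have h2 : tr (tr w (u : Matrix ι ι ℂ)) ((g : unitaryGroup ι ℂ) : Matrix ι ι ℂ) =
      tr w ((g : unitaryGroup ι ℂ) : Matrix ι ι ℂ) := by rw [tr_fix u.2 hu]
  rw [h2]
  exact trace_tr _ _ u.2

theorem mean_Fw {I : C(stabG T, ℂ) →ₗ[ℂ] ℂ} (hI : IsMean I)
    (hw : ∀ G ∈ T.U a c, trace (w * Gᴴ) = 0) : I (Fw T w) = 0 := by
  have h1 : (avf (inc T) I wᴴ)ᴴ ∈ T.U a c := T.star (avf_mem T hI wᴴ)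
  have h2 := hw _ h1
  rw [conjTranspose_conjTranspose] at h2
  rw [← h2]
  have h3 : Fw T w = ∑ x, ∑ y, w x y • (co wᴴ y x).comp (inc T) := by
    ext g
    rw [ContinuousMap.sum_apply, Fw_apply, tr_star]
    refine Finset.sum_congr rfl fun x _ => ?_
    rw [ContinuousMap.sum_apply, diag_apply, Matrix.mul_apply]
    rfl
  rw [h3, map_sum]
  refine Finset.sum_congr rfl fun x _ => ?_
  rw [map_sum, diag_apply, Matrix.mul_apply]
  refine Finset.sum_congr rfl fun y _ => ?_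
  rw [map_smul, smul_eq_mul]
  rfl

/-- The twisted average is an invariant. -/
theorem twist_mem {I : C(stabG T, ℂ) →ₗ[ℂ] ℂ} (hI : IsMean I)
    (hST : ∀ a c, T.U a c ≤ S.U a c) (hw : w ∈ S.U a c) {p q : ℕ}
    (x : Matrix (Fin q → ι) (Fin p → ι) ℂ) : avf (inc T) (Iw T w I) x ∈ S.U p q := by
  refine tannaka S fun u hu hs => ?_
  have huT : Stab T u := fun F hF => hs F (hST _ _ hF)
  let v : stabG T := ⟨⟨u, hu⟩, fun F hF => huT F hF⟩
  have h1 : tr (avf (inc T) (Iw T w I) x) u = avf (inc T) (Iw T w I) x := by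
    ext i j
    let f : C(stabG T, ℂ) := ⟨fun g => tr x (u * ((inc T g : unitaryGroup ι ℂ) : Matrix ι ι ℂ)) i j, by
      have h2 : Continuous fun g : stabG T =>
          (⟨u, hu⟩ : unitaryGroup ι ℂ) * (inc T g : unitaryGroup ι ℂ) :=
        continuous_const.mul (map_continuous (inc T))
      exact ((continuous_tr x).comp h2).matrix_elem i j⟩
    rw [← avf_tr (inc T) (Iw T w I) x u i j f fun g => rfl]
    change I (Fw T w * f) = I (Fw T w * (co x i j).comp (inc T))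
    refine hI.inv v _ _ fun g => ?_
    change Fw T w g * f g = Fw T w (v * g) * (co x i j).comp (inc T) (v * g)
    rw [Fw_mul (u := ⟨u, hu⟩) (hs w hw) v rfl g]
    rfl
  unfold UK.Fix
  have h2 := congrArg (fun Z => Z * tp (Fin p) u) h1
  simp only [tr, Matrix.mul_assoc, tpu hu, Matrix.mul_one] at h2
  exact h2

theorem trace_avf (I : C(stabG T, ℂ) →ₗ[ℂ] ℂ) {p q : ℕ} (x : Matrix (Fin q → ι) (Fin p → ι) ℂ)
    (y : Matrix (Fin p → ι) (Fin q → ι) ℂ) (f : C(stabG T, ℂ))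
    (hf : ∀ g, f g = trace (tr x ((inc T g : unitaryGroup ι ℂ) : Matrix ι ι ℂ) * y)) :
    trace (avf (inc T) I x * y) = I f := by
  have h1 : f = ∑ i, ∑ j, y j i • (co x i j).comp (inc T) := by
    ext g
    rw [ContinuousMap.sum_apply, hf]
    refine Finset.sum_congr rfl fun i _ => ?_
    rw [ContinuousMap.sum_apply, diag_apply, Matrix.mul_apply]
    refine Finset.sum_congr rfl fun j _ => ?_
    exact mul_comm _ _
  rw [h1, map_sum]
  refine Finset.sum_congr rfl fun i _ => ?_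
  rw [map_sum, diag_apply, Matrix.mul_apply]
  refine Finset.sum_congr rfl fun j _ => ?_
  rw [map_smul, smul_eq_mul, mul_comm]
  rfl

/-- The twisted average is orthogonal to the system. -/
theorem twist_perp {I : C(stabG T, ℂ) →ₗ[ℂ] ℂ} (hI : IsMean I)
    (hw : ∀ G ∈ T.U a c, trace (w * Gᴴ) = 0) {p q : ℕ}
    (x : Matrix (Fin q → ι) (Fin p → ι) ℂ) {y : Matrix (Fin q → ι) (Fin p → ι) ℂ}
    (hy : y ∈ T.U p q) : trace (avf (inc T) (Iw T w I) x * yᴴ) = 0 := by
  rw [trace_avf (Iw T w I) x yᴴ (trace (x * yᴴ) • 1)]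
  · rw [map_smul, Iw_apply, mul_one, mean_Fw hI hw, smul_zero]
  · intro g
    change trace (x * yᴴ) • (1 : ℂ) = _
    rw [smul_eq_mul, mul_one]
    have h1 : tr y ((inc T g : unitaryGroup ι ℂ) : Matrix ι ι ℂ) = y :=
      tr_fix (inc T g).2 (g.2 y hy)
    rw [← trace_tr x y (inc T g).2, h1]

/-- The twisted average is a contraction. -/
theorem twist_contr {I : C(stabG T, ℂ) →ₗ[ℂ] ℂ} (hI : IsMean I) (hw : ‖eu w‖ = 1) {p q : ℕ}
    (x : Matrix (Fin q → ι) (Fin p → ι) ℂ) :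
    ‖trace (avf (inc T) (Iw T w I) x * xᴴ)‖ ≤ ‖eu x‖ ^ 2 := by
  let f : C(stabG T, ℂ) := ⟨fun g => trace (tr x ((inc T g : unitaryGroup ι ℂ) : Matrix ι ι ℂ) * xᴴ),
    ((continuous_trS T x).matrix_mul continuous_const).matrix_trace⟩
  rw [trace_avf (Iw T w I) x xᴴ f fun g => rfl]
  refine (hI.bound _).trans ((ContinuousMap.norm_le _ (sq_nonneg _)).2 fun g => ?_)
  rw [ContinuousMap.mul_apply, norm_mul]
  have h1 : ‖f g‖ ≤ ‖eu x‖ ^ 2 := by
    refine (norm_trace_le _ _).trans ?_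
    rw [norm_tr x (inc T g).2, sq]
  exact (mul_le_mul (Fw_norm hw g) h1 (norm_nonneg _) zero_le_one).trans (le_of_eq (one_mul _))

/-- The trace of an average. -/
theorem trace_av (I : C(stabG T, ℂ) →ₗ[ℂ] ℂ) (p q : ℕ) :
    LinearMap.trace ℂ _ (avL (α := Fin p) (β := Fin q) (inc T) I) =
      I (tf1 T 1 ^ q * star (tf1 T 1) ^ p) := by
  rw [trace_eq_single]
  have h1 : tf1 T 1 ^ q * star (tf1 T 1) ^ p = ∑ x : Fin q → ι, ∑ y : Fin p → ι,
      (co (Matrix.single x y (1 : ℂ)) x y).comp (inc T) := by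
    ext g
    rw [ContinuousMap.mul_apply, ContinuousMap.pow_apply, ContinuousMap.pow_apply,
      ContinuousMap.star_apply, ContinuousMap.sum_apply]
    change trace (((1 : unitaryGroup ι ℂ) : Matrix ι ι ℂ) * ((g : unitaryGroup ι ℂ) :
      Matrix ι ι ℂ)) ^ q * star (trace (((1 : unitaryGroup ι ℂ) : Matrix ι ι ℂ) *
        ((g : unitaryGroup ι ℂ) : Matrix ι ι ℂ))) ^ p = _
    rw [OneMemClass.coe_one, Matrix.one_mul, ← star_pow, trace_pow, trace_pow, star_sum,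
      Finset.sum_mul_sum]
    refine Finset.sum_congr rfl fun x _ => ?_
    rw [ContinuousMap.sum_apply]
    refine Finset.sum_congr rfl fun y _ => ?_
    exact (tr_single x y _).symm
  rw [h1, map_sum]
  refine Finset.sum_congr rfl fun x _ => ?_
  rw [map_sum]
  rfl

/-- The dimension of a space of invariants is a mean. -/
theorem finrank_eq {I : C(stabG T, ℂ) →ₗ[ℂ] ℂ} (hI : IsMean I) (p q : ℕ) :
    (Module.finrank ℂ (T.U p q) : ℂ) = I (tf1 T 1 ^ q * star (tf1 T 1) ^ p) := by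
  rw [← trace_av I p q]
  have h1 : LinearMap.IsProj (T.U p q) (avL (α := Fin p) (β := Fin q) (inc T) I) := by
    refine ⟨fun x => avf_mem T hI x, fun x hx => ?_⟩
    rw [avL_apply]
    ext i j
    change I ((co x i j).comp (inc T)) = x i j
    have h2 : (co x i j).comp (inc T) = x i j • 1 := by
      ext g
      change tr x ((inc T g : unitaryGroup ι ℂ) : Matrix ι ι ℂ) i j = x i j • (1 : ℂ)
      rw [tr_fix (inc T g).2 (g.2 x hx), smul_eq_mul, mul_one]
    rw [h2, map_smul, hI.one, smul_eq_mul, mul_one]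
  exact h1.trace.symm

/-- **The main inequality.** -/
theorem main_ineq {I : C(stabG T, ℂ) →ₗ[ℂ] ℂ} (hI : IsMean I)
    (hST : ∀ a c, T.U a c ≤ S.U a c) (hwS : w ∈ S.U a c)
    (hwT : ∀ G ∈ T.U a c, trace (w * Gᴴ) = 0) (hw : ‖eu w‖ = 1) (p q : ℕ) :
    ‖I (Fw T w * (tf1 T 1 ^ q * star (tf1 T 1) ^ p))‖ + Module.finrank ℂ (T.U p q) ≤
      Module.finrank ℂ (S.U p q) := by
  let E : Matrix (Fin q → ι) (Fin p → ι) ℂ ≃ₗ[ℂ]
    EuclideanSpace ℂ ((Fin q → ι) × (Fin p → ι)) := eu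
  let KT := (T.U p q).map E.toLinearMap
  let KS := (S.U p q).map E.toLinearMap
  have hle : KT ≤ KS := Submodule.map_mono (hST p q)
  have hdim := Submodule.finrank_add_inf_finrank_orthogonal hle
  have hT : Module.finrank ℂ KT = Module.finrank ℂ (T.U p q) := LinearEquiv.finrank_map_eq E _
  have hS : Module.finrank ℂ KS = Module.finrank ℂ (S.U p q) := LinearEquiv.finrank_map_eq E _
  let Φ := avL (α := Fin p) (β := Fin q) (inc T) (Iw T w I)
  have htr : LinearMap.trace ℂ _ (E.conj Φ) =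
      I (Fw T w * (tf1 T 1 ^ q * star (tf1 T 1) ^ p)) := by
    rw [LinearMap.trace_conj', trace_av]
    rfl
  have h1 := trace_le (KTᗮ ⊓ KS) (E.conj Φ) (fun x => by
    rw [LinearEquiv.conj_apply_apply]
    refine ⟨?_, ?_⟩
    · refine (Submodule.mem_orthogonal _ _).2 ?_
      rintro _ ⟨y, hy, rfl⟩
      have h2 := twist_perp hI hwT (E.symm x) hy
      rw [← inner_eu] at h2
      exact h2
    · exact ⟨_, twist_mem hI hST hwS (E.symm x), rfl⟩) (fun x => by
    rw [LinearEquiv.conj_apply_apply]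
    have h2 := twist_contr hI hw (E.symm x)
    rw [← inner_eu] at h2
    have h3 : eu (E.symm x) = x := E.apply_symm_apply x
    rw [h3] at h2
    exact h2)
  rw [htr] at h1
  rw [hT, hS] at hdim
  have h2 : (Module.finrank ℂ (T.U p q) : ℝ) + Module.finrank ℂ ↥(KTᗮ ⊓ KS) =
      Module.finrank ℂ (S.U p q) := by exact_mod_cast hdim
  linarith

end two

end

end Pool.Agent.K4H35.HL
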