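import Mathlib
import Pool.Agent.K4H35.UK.Uni

set_option autoImplicit false

/-!
The complex span of a rational space of functions has the same dimension.
-/

namespace Pool.Agent.K4H35.HL

open Matrix Pool.Agent.K4H35.UK

/-- The cast of functions as a rational linear map. -/
noncomputable def castL (J : Type) : (J → ℚ) →ₗ[ℚ] (J → ℂ) where
  toFun v j := (v j : ℂ)
  map_add' v w := by
    funext j
    simp
  map_smul' c v := by
    funext j
    simp [Rat.smul_def]

/-- Rationally independent rational functions are independent over `ℂ`. -/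
theorem linearIndependent_cast {J κ : Type} [Fintype κ] {b : κ → J → ℚ}
    (hb : LinearIndependent ℚ b) : LinearIndependent ℂ (fun i (j : J) => ((b i j : ℚ) : ℂ)) := by
  rw [Fintype.linearIndependent_iff] at hb ⊢
  intro c hc
  have key : ∀ (lam : ℂ →ₗ[ℚ] ℚ) (i : κ), lam (c i) = 0 := by
    intro lam
    refine hb (fun i => lam (c i)) ?_
    funext j
    have h1 := congrFun hc j
    rw [Finset.sum_apply] at h1
    have h2 := congrArg lam h1
    rw [map_sum] at h2
    rw [Finset.sum_apply]
    have h3 : ∀ i : κ, lam ((c i • fun j : J => ((b i j : ℚ) : ℂ)) j) = (lam (c i) • b i) j := by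
      intro i
      rw [Pi.smul_apply, Pi.smul_apply, smul_eq_mul, smul_eq_mul]
      have h4 : c i * ((b i j : ℚ) : ℂ) = b i j • c i := by
        rw [Rat.smul_def, mul_comm]
      rw [h4, map_smul, smul_eq_mul, mul_comm]
    rw [← Finset.sum_congr rfl fun i _ => h3 i, h2, Pi.zero_apply, Pi.zero_apply, map_zero]
  intro i
  exact (Module.forall_dual_apply_eq_zero_iff ℚ (c i)).1 fun lam => key lam i

theorem finrank_span_cast {J : Type} [Fintype J] (V : Submodule ℚ (J → ℚ)) :
    Module.finrank ℂ (Submodule.span ℂ
      ((fun (v : J → ℚ) (j : J) => (v j : ℂ)) '' (V : Set (J → ℚ)))) = Module.finrank ℚ V := by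
  classical
  have b := Module.finBasis ℚ V
  have hb : LinearIndependent ℚ (fun i => ((b i : V) : J → ℚ)) :=
    b.linearIndependent.map' V.subtype (Submodule.ker_subtype V)
  have hbc := linearIndependent_cast hb
  have hspan : Submodule.span ℂ ((fun (v : J → ℚ) (j : J) => (v j : ℂ)) '' (V : Set (J → ℚ))) =
      Submodule.span ℂ (Set.range fun i (j : J) => ((((b i : V) : J → ℚ) j : ℚ) : ℂ)) := by
    refine le_antisymm (Submodule.span_le.2 ?_) (Submodule.span_mono ?_)
    · rintro _ ⟨v, hv, rfl⟩
      have h1 : (⟨v, hv⟩ : V) ∈ Submodule.span ℚ (Set.range b) := by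
        rw [b.span_eq]
        exact Submodule.mem_top
      have h2 : ∀ x : V, x ∈ Submodule.span ℚ (Set.range b) →
          (fun j : J => (((x : J → ℚ) j : ℚ) : ℂ)) ∈
            Submodule.span ℂ (Set.range fun i (j : J) => ((((b i : V) : J → ℚ) j : ℚ) : ℂ)) := by
        intro x hx
        induction hx using Submodule.span_induction with
        | mem x hx =>
          obtain ⟨i, rfl⟩ := hx
          exact Submodule.subset_span ⟨i, rfl⟩
        | zero =>
          have : (fun j : J => (((((0 : V) : J → ℚ) j) : ℚ) : ℂ)) = 0 := by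
            funext j
            simp
          rw [this]
          exact Submodule.zero_mem _
        | add x y _ _ h3 h4 =>
          have : (fun j : J => (((((x + y : V) : J → ℚ) j) : ℚ) : ℂ)) =
              (fun j : J => ((((x : V) : J → ℚ) j : ℚ) : ℂ)) +
                fun j : J => ((((y : V) : J → ℚ) j : ℚ) : ℂ) := by
            funext j
            simp
          rw [this]
          exact Submodule.add_mem _ h3 h4
        | smul q x _ h3 =>
          have : (fun j : J => (((((q • x : V) : J → ℚ) j) : ℚ) : ℂ)) =
              (q : ℂ) • fun j : J => ((((x : V) : J → ℚ) j : ℚ) : ℂ) := by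
            funext j
            simp
          rw [this]
          exact Submodule.smul_mem _ _ h3
      exact h2 _ h1
    · rintro _ ⟨i, rfl⟩
      exact ⟨_, (b i).2, rfl⟩
  rw [hspan, finrank_span_eq_card hbc, Fintype.card_fin]

end Pool.Agent.K4H35.HL
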