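import Mathlib
import Pool.Agent.K4H35.NT.Defs

/-!
# The proportion of the algebraic classes among the Hodge classes on the powers of a variety
-/

namespace Pool.Agent.K4H35.HL

open Matrix Pool.Agent.K4H35.NT

noncomputable section

/-- The exterior product `F × G : H(Y ^ (a + a')) → H(Y ^ (c + c'))` of the maps
`F : H(Y ^ a) → H(Y ^ c)` and `G : H(Y ^ a') → H(Y ^ c')`. -/
def exterior {Y : Cohomology} {a c a' c' : ℕ} (F : Matrix (Y.pow c).ι (Y.pow a).ι ℚ)
    (G : Matrix (Y.pow c').ι (Y.pow a').ι ℚ) :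
    Matrix (Y.pow (c + c')).ι (Y.pow (a + a')).ι ℚ :=
  Matrix.of fun (x : Fin (c + c') → Y.ι) (y : Fin (a + a') → Y.ι) =>
    F (fun i => x (Fin.castAdd c' i)) (fun i => y (Fin.castAdd a' i)) *
      G (fun i => x (Fin.natAdd c i)) (fun i => y (Fin.natAdd a i))

/-- The property `P a c F` of maps `F : H(Y ^ a) → H(Y ^ c)` is preserved by linear combinations,
compositions and exterior products (for instance, `F` is induced by an algebraic class on
`Y ^ a × Y ^ c`). -/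
structure IsClosed (Y : Cohomology)
    (P : ∀ a c : ℕ, Matrix (Y.pow c).ι (Y.pow a).ι ℚ → Prop) : Prop where
  add : ∀ (a c : ℕ) (F G : Matrix (Y.pow c).ι (Y.pow a).ι ℚ), P a c F → P a c G → P a c (F + G)
  smul : ∀ (a c : ℕ) (r : ℚ) (F : Matrix (Y.pow c).ι (Y.pow a).ι ℚ), P a c F → P a c (r • F)
  comp : ∀ (a b c : ℕ) (F : Matrix (Y.pow b).ι (Y.pow a).ι ℚ)
    (G : Matrix (Y.pow c).ι (Y.pow b).ι ℚ), P a b F → P b c G → P a c (G * F)
  prod : ∀ (a c a' c' : ℕ) (F : Matrix (Y.pow c).ι (Y.pow a).ι ℚ)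
    (G : Matrix (Y.pow c').ι (Y.pow a').ι ℚ), P a c F → P a' c' G →
    P (a + a') (c + c') (exterior F G)

/-- The property holds for the classes of the point, of the diagonal (the identity of `H(Y)`), of
the graph of the symmetry of `Y × Y`, for the unit class of `Y`, for the form `Q` on `H(Y)` (as a
map `H(Y × Y) → ℚ`) and its inverse (as a class on `Y × Y`). -/
structure ContainsForm (Y : Cohomology)
    (P : ∀ a c : ℕ, Matrix (Y.pow c).ι (Y.pow a).ι ℚ → Prop) (Q : Matrix Y.ι Y.ι ℚ) : Prop where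
  point : P 0 0 (1 : Matrix (Fin 0 → Y.ι) (Fin 0 → Y.ι) ℚ)
  diagonal : P 1 1 (1 : Matrix (Fin 1 → Y.ι) (Fin 1 → Y.ι) ℚ)
  symmetry : P 2 2 (Matrix.of fun (x y : Fin 2 → Y.ι) => if x 0 = y 1 ∧ x 1 = y 0 then 1 else 0)
  unit : P 0 1 (Matrix.of fun (x : Fin 1 → Y.ι) (_ : Fin 0 → Y.ι) => Y.one (x 0))
  form : P 2 0 (Matrix.of fun (_ : Fin 0 → Y.ι) (y : Fin 2 → Y.ι) => Q (y 0) (y 1))
  inverse : P 0 2 (Matrix.of fun (x : Fin 2 → Y.ι) (_ : Fin 0 → Y.ι) => Q⁻¹ (x 0) (x 1))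

/-- The dimension of the space of all Hodge classes on `Y ^ m` (of all codimensions). -/
def hodgeDim (Y : Cohomology) (m : ℕ) : ℕ :=
  Module.finrank ℚ (Submodule.span ℚ {F : Matrix (Y.pow m).ι (Y.pow 0).ι ℚ |
    IsCorrespondence (Y.pow 0) (Y.pow m) F})

/-- The dimension of the space of the Hodge classes on `Y ^ m` with the property `P`. -/
def classDim (Y : Cohomology) (P : ∀ a c : ℕ, Matrix (Y.pow c).ι (Y.pow a).ι ℚ → Prop)
    (m : ℕ) : ℕ :=
  Module.finrank ℚ (Submodule.span ℚ {F : Matrix (Y.pow m).ι (Y.pow 0).ι ℚ |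
    IsCorrespondence (Y.pow 0) (Y.pow m) F ∧ P 0 m F})

end

end Pool.Agent.K4H35.HL
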