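import Mathlib
import Pool.Agent.K4H35.UK.Main

/-!
# Families which contain a polarization and its inverse are closed under adjoints
-/

set_option linter.unusedSectionVars false

namespace Pool.Agent.K4H35.HL

open Matrix Pool.Agent.K4H35.UK Pool.Agent.K4H35.ST Pool.Agent.K4H35.NT Pool.Agent.W437.HP

noncomputable section

variable {ι : Type} [Fintype ι] [DecidableEq ι]
  {P : ∀ a c : ℕ, Matrix (Fin c → ι) (Fin a → ι) ℚ → Prop}

/-- A family which contains a form and its inverse is closed under adjoints. -/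
theorem clo_ad (hP : Clo P) (h0 : P 0 0 1) (h1 : P 1 1 1) {Q Qi : Matrix ι ι ℚ}
    (hcap : Px P (cap (Fin 1) Q)) (hcup : Px P (cup (Fin 1) Qi)) {a c : ℕ}
    {F : Matrix (Fin c → ι) (Fin a → ι) ℚ} (hF : P a c F) : P c a (ad Q Qi F) := by
  let M1 : Matrix ((Fin a ⊕ Fin a) ⊕ Fin c → ι) (Fin c → ι) ℚ :=
    rl (Equiv.refl _) (Equiv.emptySum (Fin 0) (Fin c)) (tens (cup (Fin a) Qi) 1)
  let M2 : Matrix ((Fin a ⊕ Fin c) ⊕ Fin c → ι) ((Fin a ⊕ Fin a) ⊕ Fin c → ι) ℚ :=
    tens (tens 1 F) 1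
  let M3 : Matrix (Fin a → ι) ((Fin a ⊕ Fin c) ⊕ Fin c → ι) ℚ :=
    rl (Equiv.sumEmpty (Fin a) (Fin 0)) (Equiv.sumAssoc (Fin a) (Fin c) (Fin c)).symm
      (tens 1 (cap (Fin c) Q))
  have hM1 : Px P M1 := ((hcup.cup hP h0 a).tens hP (Px.one hP h0 h1)).rl _ _
  have hM2 : Px P M2 := ((Px.one hP h0 h1).tens hP (Px.of hP h0 hF)).tens hP (Px.one hP h0 h1)
  have hM3 : Px P M3 := ((Px.one hP h0 h1).tens hP (hcap.cap hP h0 c)).rl _ _
  have h2 : Px P (M3 * (M2 * M1)) := (hM1.comp hP hM2).comp hP hM3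
  have hM21 : ∀ (x : Fin c → ι) (y : Fin a → ι) (w x' : Fin c → ι),
      (M2 * M1) (Sum.elim (Sum.elim y w) x') x =
        if x' = x then ∑ z, F w z * tp (Fin a) Qi y z else 0 := by
    intro x y w x'
    rw [Matrix.mul_apply, sum_elim, sum_elim]
    have e1 : ∀ (y2 z : Fin a → ι) (x2 : Fin c → ι), M2 (Sum.elim (Sum.elim y w) x')
        (Sum.elim (Sum.elim y2 z) x2) * M1 (Sum.elim (Sum.elim y2 z) x2) x =
        (if y = y2 then (1 : ℚ) else 0) * F w z * (if x' = x2 then (1 : ℚ) else 0) *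
          (tp (Fin a) Qi y2 z * (if x2 = x then (1 : ℚ) else 0)) := by
      intro y2 z x2
      congr 1
    simp only [e1]
    rw [Finset.sum_eq_single y]
    · by_cases h : x' = x
      · subst h
        simp only [if_true, one_mul]
        refine Finset.sum_congr rfl fun z _ => ?_
        rw [Finset.sum_eq_single x']
        · simp only [if_true, mul_one]
        · intro x2 _ hx2
          rw [if_neg hx2.symm]
          ring
        · intro h
          exact absurd (Finset.mem_univ _) h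
      · simp only [if_neg h]
        refine Finset.sum_eq_zero fun z _ => Finset.sum_eq_zero fun x2 _ => ?_
        by_cases h2 : x' = x2
        · subst h2
          rw [if_neg h]
          ring
        · rw [if_neg h2]
          ring
    · intro y2 _ hy2
      refine Finset.sum_eq_zero fun z _ => Finset.sum_eq_zero fun x2 _ => ?_
      rw [if_neg hy2.symm]
      ring
    · intro h
      exact absurd (Finset.mem_univ _) h
  have h3 : M3 * (M2 * M1) = ad Q Qi F := by
    ext y x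
    rw [Matrix.mul_apply, sum_elim, sum_elim]
    have e1 : ∀ (y1 : Fin a → ι) (w x' : Fin c → ι),
        M3 y (Sum.elim (Sum.elim y1 w) x') =
          (if y = y1 then (1 : ℚ) else 0) * tp (Fin c) Q w x' := by
      intro y1 w x'
      rfl
    simp only [e1, hM21]
    unfold ad
    rw [Finset.sum_eq_single y, Matrix.mul_apply]
    · refine Finset.sum_congr rfl fun w _ => ?_
      rw [Finset.sum_eq_single x, if_pos rfl, if_pos rfl, one_mul, Matrix.mul_apply,
        Finset.mul_sum, Finset.sum_mul]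
      · refine Finset.sum_congr rfl fun z _ => ?_
        rw [transpose_apply]
        ring
      · intro x' _ hx'
        rw [if_neg hx', mul_zero]
      · intro h
        exact absurd (Finset.mem_univ _) h
    · intro y1 _ hy1
      refine Finset.sum_eq_zero fun w _ => Finset.sum_eq_zero fun x' _ => ?_
      rw [if_neg hy1.symm, zero_mul, zero_mul]
    · intro h
      exact absurd (Finset.mem_univ _) h
  rw [h3] at h2
  exact h2.to

variable {D : Matrix ι ι ℂ} {Q Qi : Matrix ι ι ℚ}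

/-- The Hodge correspondences in the family. -/
def PH (P : ∀ a c : ℕ, Matrix (Fin c → ι) (Fin a → ι) ℚ → Prop) (D : Matrix ι ι ℂ)
    (a c : ℕ) (F : Matrix (Fin c → ι) (Fin a → ι) ℚ) : Prop :=
  P a c F ∧ Hd D F

theorem clo_PH (hP : Clo P) : Clo (PH P D) where
  add := fun hF hG => ⟨hP.add hF.1 hG.1, hF.2.add hG.2⟩
  smul := fun r _ hF => ⟨hP.smul r hF.1, hF.2.smul r⟩
  comp := fun hF hG => ⟨hP.comp hF.1 hG.1, hF.2.comp hG.2⟩
  prod := fun e e' _ _ hF hG => ⟨hP.prod e e' hF.1 hG.1, hF.2.prod e e' hG.2⟩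

/-- The classes which the family has to contain. -/
structure Lef (P : ∀ a c : ℕ, Matrix (Fin c → ι) (Fin a → ι) ℚ → Prop) (D : Matrix ι ι ℂ)
    (Q Qi : Matrix ι ι ℚ) : Prop where
  clo : Clo P
  h0 : P 0 0 1
  h1 : P 1 1 1
  hcap : Px P (cap (Fin 1) Q)
  hcup : Px P (cup (Fin 1) Qi)
  pol : Pol D Q Qi

theorem Lef.capH (h : Lef P D Q Qi) : Px (PH P D) (cap (Fin 1) Q) := by
  intro a c e e'
  refine ⟨h.hcap a c e e', hd_px ?_ e e'⟩
  rw [dr_cap h.pol.skew, dr_zero_fin, Matrix.zero_mul]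

theorem cup_transpose (R : Matrix ι ι ℚ) : cup (Fin 1) Rᵀ =
    rl (Equiv.sumComm (Fin 1) (Fin 1)) (Equiv.refl (Fin 0)) (cup (Fin 1) R) := by
  ext x y
  rfl

theorem Lef.cupH (h : Lef P D Q Qi) : Px (PH P D) (cup (Fin 1) Qiᵀ) := by
  intro a c e e'
  refine ⟨?_, hd_px ?_ e e'⟩
  · have h2 : Px P (cup (Fin 1) Qiᵀ) := by
      rw [cup_transpose]
      exact h.hcup.rl _ _
    exact h2 a c e e'
  · have h1 : Dᵀᵀ * cK ℂ Qiᵀ + cK ℂ Qiᵀ * Dᵀ = 0 := by
      rw [transpose_transpose, W437.HP.cK_transpose, h.pol.c4, neg_add_cancel]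
    have h2 := congrArg transpose (dr_cap h1)
    rw [transpose_mul, dr_transpose, transpose_transpose, transpose_zero] at h2
    have h3 : (cK ℂ (cap (Fin 1) Qiᵀ))ᵀ = cK ℂ (cup (Fin 1) Qiᵀ) := rfl
    rw [h3] at h2
    rw [h2, dr_zero_fin, Matrix.mul_zero]

theorem Lef.wire (h : Lef P D Q Qi) {a a' c c' : ℕ} (e : Fin a ⊕ Fin a' ≃ Fin c ⊕ Fin c')
    {F : Matrix (Fin c' → ι) (Fin a' → ι) ℚ} (hF : PH P D a' c' F) :
    PH P D c a (UK.wire e F) := by
  refine (clo_PH h.clo).wire ⟨h.h0, hd_one 0⟩ ⟨h.h1, hd_one 1⟩ (Q := Q) (Q' := Qiᵀ) ?_ h.capH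
    h.cupH e hF
  rw [transpose_transpose, h.pol.inv]

/-- The system of the Hodge correspondences in the family. -/
def Lef.sys (h : Lef P D Q Qi) (f : Fr D (cK ℂ Q)) : Sys ι :=
  Tsys (PH P D) (W := f.R * f.Pi) (Wi := f.P * f.Ri)
    (by rw [Matrix.mul_assoc, ← Matrix.mul_assoc f.Pi, f.PiP, Matrix.one_mul, f.RRi])
    ⟨h.h0, hd_one 0⟩
    (fun {_ _ _ _ _ _} hF hF' => (clo_PH h.clo).prod finSumFinEquiv finSumFinEquiv hF hF')
    (fun {_ _ _} hF => ⟨_, ⟨clo_ad h.clo h.h0 h.h1 h.hcap h.hcup hF.1,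
      hF.2.ad h.pol.inv h.pol.skew⟩, tw_star h.pol f hF.2⟩)
    (fun {_ _ _ _} e {_} hF => h.wire e hF)

end

end Pool.Agent.K4H35.HL
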