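import Mathlib
import Pool.Agent.K4H35.HL.Lef
import Pool.Agent.K4H35.HL.Defs
import Pool.Agent.K4H35.HL.D
import Pool.Agent.K4H35.UK.Final

/-!
# The dimensions of the spaces of classes are dimensions of spaces of invariants
-/

set_option linter.unusedSectionVars false

namespace Pool.Agent.K4H35.HL

open Matrix Pool.Agent.K4H35.UK Pool.Agent.K4H35.ST Pool.Agent.K4H35.NT Pool.Agent.W437.HP

noncomputable section

variable {ι : Type} [Fintype ι] [DecidableEq ι]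

/-- The change of the basis. -/
def twE {W Wi : Matrix ι ι ℂ} (hW : W * Wi = 1) (a c : ℕ) :
    ((Fin c → ι) × (Fin a → ι) → ℂ) ≃ₗ[ℂ] Matrix (Fin c → ι) (Fin a → ι) ℂ where
  toFun f := tp (Fin c) W * Matrix.of (fun x y => f (x, y)) * tp (Fin a) Wi
  map_add' f g := by
    have e1 : Matrix.of (fun x y => (f + g) (x, y)) = Matrix.of (fun x y => f (x, y)) +
      Matrix.of (fun x y => g (x, y)) := rfl
    rw [e1, Matrix.mul_add, Matrix.add_mul]
  map_smul' r f := by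
    have e1 : Matrix.of (fun x y => (r • f) (x, y)) = r • Matrix.of (fun x y => f (x, y)) :=
      rfl
    rw [e1, Matrix.mul_smul, Matrix.smul_mul, RingHom.id_apply]
  invFun G := fun p => (tp (Fin c) Wi * G * tp (Fin a) W) p.1 p.2
  left_inv f := by
    have hW' : Wi * W = 1 := mul_eq_one_comm.1 hW
    have e1 : tp (Fin c) Wi * (tp (Fin c) W * Matrix.of (fun x y => f (x, y)) * tp (Fin a) Wi) *
        tp (Fin a) W = (tp (Fin c) Wi * tp (Fin c) W) * Matrix.of (fun x y => f (x, y)) *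
        (tp (Fin a) Wi * tp (Fin a) W) := by
      simp only [Matrix.mul_assoc]
    funext p
    change (tp (Fin c) Wi * (tp (Fin c) W * Matrix.of (fun x y => f (x, y)) * tp (Fin a) Wi) *
        tp (Fin a) W) p.1 p.2 = _
    rw [e1, ← tp_mul, ← tp_mul, hW', tp_one, tp_one, Matrix.one_mul, Matrix.mul_one]
    rfl
  right_inv G := by
    have e0 : Matrix.of (fun x y => (fun p : (Fin c → ι) × (Fin a → ι) =>
      (tp (Fin c) Wi * G * tp (Fin a) W) p.1 p.2) (x, y)) = tp (Fin c) Wi * G * tp (Fin a) W := rfl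
    have e1 : tp (Fin c) W * (tp (Fin c) Wi * G * tp (Fin a) W) *
        tp (Fin a) Wi = (tp (Fin c) W * tp (Fin c) Wi) * G *
        (tp (Fin a) W * tp (Fin a) Wi) := by
      simp only [Matrix.mul_assoc]
    change tp (Fin c) W * Matrix.of (fun x y => (fun p : (Fin c → ι) × (Fin a → ι) =>
      (tp (Fin c) Wi * G * tp (Fin a) W) p.1 p.2) (x, y)) * tp (Fin a) Wi = _
    rw [e0, e1, ← tp_mul, ← tp_mul, hW, tp_one, tp_one, Matrix.one_mul, Matrix.mul_one]

/-- Complex and rational dimensions. -/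
theorem finrank_tw {W Wi : Matrix ι ι ℂ} (hW : W * Wi = 1) {a c : ℕ}
    (R : Matrix (Fin c → ι) (Fin a → ι) ℚ → Prop) :
    Module.finrank ℂ (Submodule.span ℂ {X | ∃ F, R F ∧ X = tw W Wi F}) =
      Module.finrank ℚ (Submodule.span ℚ {F | R F}) := by
  let e : Matrix (Fin c → ι) (Fin a → ι) ℚ ≃ₗ[ℚ] ((Fin c → ι) × (Fin a → ι) → ℚ) :=
    (LinearEquiv.curry ℚ ℚ (Fin c → ι) (Fin a → ι)).symm
  let V : Submodule ℚ ((Fin c → ι) × (Fin a → ι) → ℚ) := (Submodule.span ℚ {F | R F}).map e.toLinearMap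
  have h1 : Module.finrank ℚ V = Module.finrank ℚ (Submodule.span ℚ {F | R F}) :=
    LinearEquiv.finrank_map_eq e _
  rw [← h1, ← finrank_span_cast V]
  have h2 : Submodule.span ℂ {X | ∃ F, R F ∧ X = tw W Wi F} =
      (Submodule.span ℂ ((fun (v : (Fin c → ι) × (Fin a → ι) → ℚ) j => (v j : ℂ)) ''
        (V : Set ((Fin c → ι) × (Fin a → ι) → ℚ)))).map (twE hW a c).toLinearMap := by
    apply le_antisymm
    · rw [Submodule.span_le]
      rintro _ ⟨F, hF, rfl⟩
      exact ⟨fun p => (F p.1 p.2 : ℂ), Submodule.subset_span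
        ⟨fun p => F p.1 p.2, ⟨F, Submodule.subset_span hF, rfl⟩, rfl⟩, rfl⟩
    · rw [Submodule.map_le_iff_le_comap, Submodule.span_le]
      rintro _ ⟨v, ⟨F, hF, rfl⟩, rfl⟩
      change tw W Wi F ∈ Submodule.span ℂ {X | ∃ F, R F ∧ X = tw W Wi F}
      induction hF using Submodule.span_induction with
      | mem F hF => exact Submodule.subset_span ⟨F, hF, rfl⟩
      | zero =>
        have h3 : tw W Wi (0 : Matrix (Fin c → ι) (Fin a → ι) ℚ) = 0 := by
          unfold tw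
          have h : cK ℂ (0 : Matrix (Fin c → ι) (Fin a → ι) ℚ) = 0 := by
            ext i j
            exact Rat.cast_zero
          rw [h, Matrix.mul_zero, Matrix.zero_mul]
        rw [h3]
        exact Submodule.zero_mem _
      | add F G _ _ h3 h4 =>
        have h5 : tw W Wi (F + G) = tw W Wi F + tw W Wi G := by
          unfold tw
          rw [cK_add', Matrix.mul_add, Matrix.add_mul]
        rw [h5]
        exact Submodule.add_mem _ h3 h4
      | smul r F _ h3 =>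
        have h5 : tw W Wi (r • F) = (r : ℂ) • tw W Wi F := by
          unfold tw
          rw [cK_smul', Matrix.mul_smul, Matrix.smul_mul]
        rw [h5]
        exact Submodule.smul_mem _ _ h3
  rw [h2]
  exact LinearEquiv.finrank_map_eq (twE hW a c) _

section sys

variable {P : ∀ a c : ℕ, Matrix (Fin c → ι) (Fin a → ι) ℚ → Prop}
  {D : Matrix ι ι ℂ} {Q Qi : Matrix ι ι ℚ}

theorem frW (f : Fr D (cK ℂ Q)) : (f.R * f.Pi) * (f.P * f.Ri) = 1 := by
  rw [Matrix.mul_assoc, ← Matrix.mul_assoc f.Pi, f.PiP, Matrix.one_mul, f.RRi]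

/-- The system of all Hodge correspondences. -/
def hodgeSys (f : Fr D (cK ℂ Q)) : Sys ι :=
  invSys (AA D (f.R * f.Pi) (f.P * f.Ri)) fun _ hA => AA_star hA

theorem hodgeSys_U (hp : Pol D Q Qi) (f : Fr D (cK ℂ Q)) (a c : ℕ) :
    (hodgeSys f).U a c = Submodule.span ℂ {X | ∃ F, Hd D F ∧ X = tw (f.R * f.Pi) (f.P * f.Ri) F} := by
  have hW := frW f
  have hW' : (f.P * f.Ri) * (f.R * f.Pi) = 1 := mul_eq_one_comm.1 hW
  apply le_antisymm
  · intro G hG
    exact inv_le hW hW' hG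
  · rw [Submodule.span_le]
    rintro _ ⟨F, hF, rfl⟩
    exact tw_mem hW' (fun {a c F} hF => ⟨_, hF.ad hp.inv hp.skew, tw_star hp f hF⟩) hF

theorem sys_le (h : Lef P D Q Qi) (f : Fr D (cK ℂ Q)) (a c : ℕ) :
    (h.sys f).U a c ≤ (hodgeSys f).U a c := by
  rw [hodgeSys_U h.pol f]
  refine Submodule.span_mono ?_
  rintro _ ⟨F, hF, rfl⟩
  exact ⟨F, hF.2, rfl⟩

theorem finrank_sys (h : Lef P D Q Qi) (f : Fr D (cK ℂ Q)) (a c : ℕ) :
    Module.finrank ℂ ((h.sys f).U a c) =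
      Module.finrank ℚ (Submodule.span ℚ {F | PH P D a c F}) :=
  finrank_tw (frW f) (PH P D a c)

theorem finrank_hodgeSys (hp : Pol D Q Qi) (f : Fr D (cK ℂ Q)) (a c : ℕ) :
    Module.finrank ℂ ((hodgeSys f).U a c) =
      Module.finrank ℚ (Submodule.span ℚ {F : Matrix (Fin c → ι) (Fin a → ι) ℚ | Hd D F}) := by
  rw [hodgeSys_U hp f]
  exact finrank_tw (frW f) (Hd D)

theorem tw_mem_sys (h : Lef P D Q Qi) (f : Fr D (cK ℂ Q)) {a c : ℕ}
    {F : Matrix (Fin c → ι) (Fin a → ι) ℚ} (hF : PH P D a c F) :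
    tw (f.R * f.Pi) (f.P * f.Ri) F ∈ (h.sys f).U a c :=
  Submodule.subset_span ⟨F, hF, rfl⟩

/-- A Hodge correspondence which belongs to the system belongs to the family. -/
theorem of_tw_mem (h : Lef P D Q Qi) (f : Fr D (cK ℂ Q)) (hz : ∀ a c, P a c 0) {a c : ℕ}
    {F : Matrix (Fin c → ι) (Fin a → ι) ℚ}
    (hF : tw (f.R * f.Pi) (f.P * f.Ri) F ∈ (h.sys f).U a c) : P a c F := by
  have hW := frW f
  have hW' : (f.P * f.Ri) * (f.R * f.Pi) = 1 := mul_eq_one_comm.1 hW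
  have h2 : cK ℂ F ∈ Submodule.span ℂ {X | ∃ F', PH P D a c F' ∧ X = cK ℂ F'} := by
    let L : Matrix (Fin c → ι) (Fin a → ι) ℂ →ₗ[ℂ] Matrix (Fin c → ι) (Fin a → ι) ℂ :=
      { toFun := fun X => tp (Fin c) (f.P * f.Ri) * X * tp (Fin a) (f.R * f.Pi)
        map_add' := fun X Y => by rw [Matrix.mul_add, Matrix.add_mul]
        map_smul' := fun r X => by
          rw [Matrix.mul_smul, Matrix.smul_mul, RingHom.id_apply] }
    have hL : ∀ F' : Matrix (Fin c → ι) (Fin a → ι) ℚ,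
        L (tw (f.R * f.Pi) (f.P * f.Ri) F') = cK ℂ F' := by
      intro F'
      change tp (Fin c) (f.P * f.Ri) * (tp (Fin c) (f.R * f.Pi) * cK ℂ F' *
        tp (Fin a) (f.P * f.Ri)) * tp (Fin a) (f.R * f.Pi) = _
      have e1 : tp (Fin c) (f.P * f.Ri) * (tp (Fin c) (f.R * f.Pi) * cK ℂ F' *
          tp (Fin a) (f.P * f.Ri)) * tp (Fin a) (f.R * f.Pi) =
          (tp (Fin c) (f.P * f.Ri) * tp (Fin c) (f.R * f.Pi)) * cK ℂ F' *
          (tp (Fin a) (f.P * f.Ri) * tp (Fin a) (f.R * f.Pi)) := by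
        simp only [Matrix.mul_assoc]
      rw [e1, ← tp_mul, ← tp_mul, hW', tp_one, tp_one, Matrix.one_mul, Matrix.mul_one]
    have h3 : (h.sys f).U a c ≤
        (Submodule.span ℂ {X | ∃ F', PH P D a c F' ∧ X = cK ℂ F'}).comap L := by
      refine Submodule.span_le.2 ?_
      rintro _ ⟨F', hF', rfl⟩
      refine Submodule.subset_span ⟨F', hF', hL F'⟩
    have h4 := h3 hF
    rw [Submodule.mem_comap, hL] at h4
    exact h4
  have h3 : (fun p : (Fin c → ι) × (Fin a → ι) => F p.1 p.2) ∈ Submodule.span ℚ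
      {g : (Fin c → ι) × (Fin a → ι) → ℚ | PH P D a c (Matrix.of fun x y => g (x, y))} := by
    refine W437.HK.descent (k := ℂ) _ _ ?_
    let L : Matrix (Fin c → ι) (Fin a → ι) ℂ →ₗ[ℂ] ((Fin c → ι) × (Fin a → ι) → ℂ) :=
      { toFun := fun X p => X p.1 p.2
        map_add' := fun _ _ => rfl
        map_smul' := fun _ _ => rfl }
    have h4 : Submodule.span ℂ {X | ∃ F', PH P D a c F' ∧ X = cK ℂ F'} ≤
        (Submodule.span ℂ ((fun (g : (Fin c → ι) × (Fin a → ι) → ℚ) v => ((g v : ℚ) : ℂ)) ''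
          {g | PH P D a c (Matrix.of fun x y => g (x, y))})).comap L := by
      rw [Submodule.span_le]
      rintro _ ⟨F', hF', rfl⟩
      exact Submodule.subset_span ⟨fun p => F' p.1 p.2, hF', rfl⟩
    exact h4 h2
  exact ((clo_PH (D := D) h.clo).sum ⟨hz a c, hd_zero a c⟩ (fun g hg => hg) h3).1

section real

theorem sum_two {M : Type} [AddCommMonoid M] (F : ι → ι → M) :
    ∑ y : Fin 2 → ι, F (y 0) (y 1) = ∑ i, ∑ j, F i j := by
  rw [← Fintype.sum_prod_type' (f := F)]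
  exact Fintype.sum_equiv (finTwoArrowEquiv ι) _ _ fun _ => rfl

theorem tp_two (A : Matrix ι ι ℂ) (x y : Fin 2 → ι) :
    tp (Fin 2) A x y = A (x 0) (y 0) * A (x 1) (y 1) := by
  rw [tp_apply, Fin.prod_univ_two]

/-- A form as a correspondence. -/
def fc (Q : Matrix ι ι ℚ) : Matrix (Fin 0 → ι) (Fin 2 → ι) ℚ :=
  Matrix.of fun _ y => Q (y 0) (y 1)

/-- The traces of the elements of the stabilizer are real. -/
theorem trace_real (h : Lef P D Q Qi) (f : Fr D (cK ℂ Q)) (hfc : PH P D 2 0 (fc Q))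
    {g : Matrix ι ι ℂ} (hg : g ∈ unitaryGroup ι ℂ) (hs : Stab (h.sys f) g) :
    (trace g).im = 0 := by
  obtain ⟨W, hWd⟩ : ∃ W, W = f.R * f.Pi := ⟨_, rfl⟩
  obtain ⟨Wi, hWid⟩ : ∃ Wi, Wi = f.P * f.Ri := ⟨_, rfl⟩
  have hW : W * Wi = 1 := by rw [hWd, hWid]; exact frW f
  have hW' : Wi * W = 1 := mul_eq_one_comm.1 hW
  have h1 := hs _ (tw_mem_sys h f hfc)
  unfold UK.Fix tw at h1
  rw [← hWd, ← hWid, tp_zero_fin, tp_zero_fin, Matrix.one_mul, Matrix.one_mul] at h1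
  obtain ⟨k, hk⟩ : ∃ k, k = Wi * g * W := ⟨_, rfl⟩
  have h2 : cK ℂ (fc Q) * tp (Fin 2) k = cK ℂ (fc Q) := by
    have e1 := congrArg (fun Z => Z * tp (Fin 2) W) h1
    simp only [Matrix.mul_assoc, ← tp_mul] at e1
    rw [hW', tp_one, Matrix.mul_one] at e1
    rw [hk, Matrix.mul_assoc]
    exact e1.symm
  have h3 : kᵀ * cK ℂ Q * k = cK ℂ Q := by
    ext i j
    have e1 := congrFun (congrFun h2 (fun _ => i)) ![i, j]
    rw [Matrix.mul_apply] at e1
    have e2 : ∀ y : Fin 2 → ι, cK ℂ (fc Q) (fun _ => i) y * tp (Fin 2) k y ![i, j] =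
        (cK ℂ Q (y 0) (y 1)) * (k (y 0) i * k (y 1) j) := by
      intro y
      rw [tp_two]
      rfl
    simp only [e2] at e1
    rw [sum_two (fun a b => cK ℂ Q a b * (k a i * k b j))] at e1
    have e3 : cK ℂ (fc Q) (fun _ => i) ![i, j] = cK ℂ Q i j := rfl
    rw [e3] at e1
    rw [← e1, Matrix.mul_apply, Finset.sum_comm]
    refine Finset.sum_congr rfl fun b _ => ?_
    rw [Matrix.mul_apply, Finset.sum_mul]
    refine Finset.sum_congr rfl fun a _ => ?_
    rw [transpose_apply]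
    ring
  have hQc : cK ℂ Q * cK ℂ Qi = 1 := by rw [← W437.HP.cK_mul, h.pol.inv, W437.HP.cK_one]
  have hQc' : cK ℂ Qi * cK ℂ Q = 1 := mul_eq_one_comm.1 hQc
  obtain ⟨k', hk'⟩ : ∃ k', k' = Wi * gᴴ * W := ⟨_, rfl⟩
  have hkk' : k * k' = 1 := by
    have e1 : (Wi * g * W) * (Wi * gᴴ * W) = Wi * (g * (W * Wi) * gᴴ) * W := by
      simp only [Matrix.mul_assoc]
    rw [hk, hk', e1, hW, Matrix.mul_one, uu' hg, Matrix.mul_one, hW']
  have h4 : k' = cK ℂ Qi * kᵀ * cK ℂ Q := by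
    have e1 : cK ℂ Qi * (kᵀ * cK ℂ Q * k) * k' = cK ℂ Qi * kᵀ * cK ℂ Q * (k * k') := by
      simp only [Matrix.mul_assoc]
    rw [h3, hkk', hQc', Matrix.one_mul, Matrix.mul_one] at e1
    exact e1
  have h5 : trace k' = trace k := by
    rw [h4, trace_mul_comm, ← Matrix.mul_assoc, hQc, Matrix.one_mul, trace_transpose]
  have h6 : trace k = trace g := by
    rw [hk, trace_mul_comm, ← Matrix.mul_assoc, hW, Matrix.one_mul]
  have h7 : trace k' = star (trace g) := by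
    rw [hk', trace_mul_comm, ← Matrix.mul_assoc, hW, Matrix.one_mul, trace_conjTranspose]
  rw [h6, h7] at h5
  exact Complex.conj_eq_iff_im.1 h5

/-- A class as a correspondence. -/
def uc (o : ι → ℚ) : Matrix (Fin 1 → ι) (Fin 0 → ι) ℚ := Matrix.of fun x _ => o (x 0)

/-- The stabilizer fixes a vector. -/
theorem fix_vec (h : Lef P D Q Qi) (f : Fr D (cK ℂ Q)) {o : ι → ℚ} (ho : o ≠ 0)
    (hu : PH P D 0 1 (uc o)) : ∃ e : ι → ℂ, e ≠ 0 ∧
    ∀ g : stabG (h.sys f), ((g : unitaryGroup ι ℂ) : Matrix ι ι ℂ) *ᵥ e = e := by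
  obtain ⟨W, hWd⟩ : ∃ W, W = f.R * f.Pi := ⟨_, rfl⟩
  obtain ⟨Wi, hWid⟩ : ∃ Wi, Wi = f.P * f.Ri := ⟨_, rfl⟩
  have hW : W * Wi = 1 := by rw [hWd, hWid]; exact frW f
  have hW' : Wi * W = 1 := mul_eq_one_comm.1 hW
  have hone : ∀ (A : Matrix ι ι ℂ) (X : Matrix (Fin 1 → ι) (Fin 0 → ι) ℂ) (i : ι)
      (y : Fin 0 → ι), (tp (Fin 1) A * X) (fun _ => i) y = ∑ j, A i j * X (fun _ => j) y := by
    intro A X i y
    rw [Matrix.mul_apply]
    refine (Fintype.sum_equiv (Equiv.funUnique (Fin 1) ι) _ _ fun x => ?_)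
    rw [tp_apply, Fin.prod_univ_one]
    have e1 : x = fun _ => (Equiv.funUnique (Fin 1) ι) x := by
      funext s
      exact congrArg x (Subsingleton.elim s _)
    conv_lhs => rw [e1]
  have hX : ∀ i (y : Fin 0 → ι), tw W Wi (uc o) (fun _ => i) y = (W *ᵥ fun j => (o j : ℂ)) i := by
    intro i y
    unfold tw
    rw [tp_zero_fin, Matrix.mul_one, hone]
    rfl
  refine ⟨W *ᵥ fun j => (o j : ℂ), ?_, fun g => ?_⟩
  · intro h0
    have h1 := congrArg (fun v => Wi *ᵥ v) h0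
    simp only [mulVec_mulVec, hW', one_mulVec, mulVec_zero] at h1
    apply ho
    funext j
    have h2 : (o j : ℂ) = 0 := congrFun h1 j
    change o j = 0
    exact_mod_cast h2
  · have h1 := g.2 _ (tw_mem_sys h f hu)
    unfold UK.Fix at h1
    rw [← hWd, ← hWid] at h1
    conv_rhs at h1 => rw [tp_zero_fin, Matrix.mul_one]
    funext i
    have h2 := congrFun (congrFun h1 (fun _ => i)) Fin.elim0
    rw [hone, hX] at h2
    rw [← h2]
    refine Finset.sum_congr rfl fun j _ => ?_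
    rw [hX]

end real

end sys

end

end Pool.Agent.K4H35.HL
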